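import Mathlib

set_option autoImplicit false

namespace Pool.Agent.H.MP_4da108_an

open Finset

universe u

theorem comb {X ι : Type} [Fintype X] [Fintype ι] (x0 : X)
    (hι : 2 ^ Fintype.card X * Fintype.card X < Fintype.card ι) (lam : ι → X → ℂ)
    (h1 : ∀ i, lam i x0 = 1)
    (h : ∀ S : Finset ι, S.Nonempty → ∑ x, ∏ i ∈ S, lam i x = 0) : False := by
  classical
  obtain ⟨T, hT⟩ := Fintype.exists_lt_card_fiber_of_mul_lt_card
    (f := fun i : ι => (univ.filter fun x => lam i x = 1 : Finset X))
    (n := Fintype.card X) (by rwa [Fintype.card_finset])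
  have hc : Fintype.card (Option X) ≤
      Fintype.card {i : ι // (univ.filter fun x => lam i x = 1 : Finset X) = T} := by
    rw [Fintype.card_option, Fintype.card_subtype]
    exact hT
  obtain ⟨e⟩ := Function.Embedding.nonempty_of_card_le hc
  set j : Option X → ι := fun o => (e o).1 with hj
  have jinj : Function.Injective j := Subtype.val_injective.comp e.injective
  have hjT : ∀ o x, lam (j o) x = 1 ↔ x ∈ T := by
    intro o x
    rw [← (e o).2]
    simp [hj]
  have key : ∀ Y : Finset X, ∀ S : Finset ι, S.Nonempty → (∀ y ∈ Y, j (some y) ∉ S) →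
      ∑ x, (∏ i ∈ S, lam i x) * ∏ y ∈ Y, (lam (j (some y)) x - lam (j (some y)) y) = 0 := by
    intro Y
    induction Y using Finset.induction_on with
    | empty => intro S hS _; simpa using h S hS
    | insert y Y hy ih =>
      intro S hS hd
      have hyS : j (some y) ∉ S := hd y (mem_insert_self _ _)
      have h1 := ih (insert (j (some y)) S) (insert_nonempty _ _) (by
        intro z hz hm
        rcases mem_insert.1 hm with hm | hm
        · have := jinj hm
          simp only [Option.some.injEq] at this
          exact hy (this ▸ hz)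
        · exact hd z (mem_insert_of_mem hz) hm)
      have h2 := ih S hS (fun z hz => hd z (mem_insert_of_mem hz))
      simp only [prod_insert hy, prod_insert hyS] at h1 ⊢
      have : ∀ x, (∏ i ∈ S, lam i x) * ((lam (j (some y)) x - lam (j (some y)) y) *
          ∏ y ∈ Y, (lam (j (some y)) x - lam (j (some y)) y)) =
          lam (j (some y)) x * (∏ i ∈ S, lam i x) *
            ∏ y ∈ Y, (lam (j (some y)) x - lam (j (some y)) y) - lam (j (some y)) y *
          ((∏ i ∈ S, lam i x) * ∏ y ∈ Y, (lam (j (some y)) x - lam (j (some y)) y)) := by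
        intro x; ring
      simp only [this, sum_sub_distrib, ← mul_sum, h1, h2]
      simp
  have h3 := key Tᶜ {j none} (singleton_nonempty _) (by
    intro y _ hm
    have := jinj (mem_singleton.1 hm)
    simp at this)
  have h4 : ∀ x, (∏ i ∈ ({j none} : Finset ι), lam i x) *
      ∏ y ∈ Tᶜ, (lam (j (some y)) x - lam (j (some y)) y) =
      if x ∈ T then ∏ y ∈ Tᶜ, (1 - lam (j (some y)) y) else 0 := by
    intro x
    split_ifs with hx
    · rw [prod_singleton, (hjT none x).2 hx, one_mul]
      exact prod_congr rfl fun y _ => by rw [(hjT (some y) x).2 hx]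
    · rw [prod_eq_zero (mem_compl.2 hx) (sub_self _), mul_zero]
  simp only [h4, sum_ite_mem, univ_inter, sum_const, nsmul_eq_mul, mul_eq_zero,
    Nat.cast_eq_zero, card_eq_zero, prod_eq_zero_iff] at h3
  rcases h3 with h3 | ⟨y, hy, h3⟩
  · have : x0 ∈ T := (hjT none x0).1 (h1 _)
    simp [h3] at this
  · exact (mem_compl.1 hy) ((hjT (some y) y).1 (sub_eq_zero.1 h3).symm)

/-- the diagonal copy on the coordinates in `S` -/
def dg {H ι : Type} [Group H] [DecidableEq ι] (S : Finset ι) (h : H) : ι → H :=
  fun i => if i ∈ S then h else 1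

theorem rep_false {H ι : Type} [Group H] [Fintype H] [Fintype ι] [DecidableEq ι]
    (hι : 2 ^ Fintype.card H * Fintype.card H < Fintype.card ι) (n : ℕ) :
    ∀ (V : Type u) [AddCommGroup V] [Module ℂ V] [FiniteDimensional ℂ V] [Nontrivial V],
      Module.finrank ℂ V = n → ∀ ρ : (ι → H) →* Module.End ℂ V,
      (∀ S : Finset ι, S.Nonempty → ∑ h, ρ (dg S h) = 0) → False := by
  induction n using Nat.strong_induction_on with
  | _ n ih =>
  intro V _ _ _ _ hn ρ hρ
  set c : ι → H → Module.End ℂ V := fun i h => ∑ g, ρ (Pi.mulSingle i (g * h * g⁻¹)) with hc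
  have hcomm : ∀ i h k, c i h * ρ k = ρ k * c i h := by
    intro i h k
    simp only [hc, sum_mul, mul_sum, ← map_mul]
    symm
    refine Fintype.sum_equiv (Equiv.mulLeft (k i)) _ _ fun g => ?_
    congr 1
    funext j
    by_cases hj : j = i
    · subst hj
      simp [mul_assoc]
    · simp [Pi.mulSingle_eq_of_ne hj]
  by_cases hs : ∀ i h, ∃ μ : ℂ, c i h = μ • (1 : Module.End ℂ V)
  · choose μ hμ using hs
    have hH : (Fintype.card H : ℂ) ≠ 0 := by simp
    have hd : (Module.finrank ℂ V : ℂ) ≠ 0 := by
      exact_mod_cast (Module.finrank_pos (R := ℂ) (M := V)).ne'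
    have tr1 : ∀ i h (k : ι → H), k i = 1 →
        LinearMap.trace ℂ V (ρ (Pi.mulSingle i h * k)) =
          μ i h / Fintype.card H * LinearMap.trace ℂ V (ρ k) := by
      intro i h k hk
      have e1 : ∀ g : H, LinearMap.trace ℂ V (ρ (Pi.mulSingle i (g * h * g⁻¹) * k)) =
          LinearMap.trace ℂ V (ρ (Pi.mulSingle i h * k)) := by
        intro g
        have : (Pi.mulSingle i (g * h * g⁻¹) * k : ι → H) =
            Pi.mulSingle i g * (Pi.mulSingle i h * k * Pi.mulSingle i g⁻¹) := by
          funext j
          by_cases hj : j = i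
          · subst hj
            simp [mul_assoc, hk]
          · simp [Pi.mulSingle_eq_of_ne hj]
        rw [this, map_mul, LinearMap.trace_mul_comm, ← map_mul]
        congr 2
        funext j
        by_cases hj : j = i
        · subst hj
          simp [mul_assoc]
        · simp [Pi.mulSingle_eq_of_ne hj]
      have e2 : LinearMap.trace ℂ V (c i h * ρ k) =
          Fintype.card H * LinearMap.trace ℂ V (ρ (Pi.mulSingle i h * k)) := by
        simp only [hc, sum_mul, ← map_mul, map_sum, e1]
        simp
      rw [hμ, smul_mul_assoc, one_mul, map_smul, smul_eq_mul] at e2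
      field_simp
      rw [e2]
      ring
    have tr2 : ∀ (h : H) (S : Finset ι), LinearMap.trace ℂ V (ρ (dg S h)) =
        (∏ i ∈ S, μ i h / Fintype.card H) * Module.finrank ℂ V := by
      intro h S
      induction S using Finset.induction_on with
      | empty =>
        have : dg (∅ : Finset ι) h = 1 := by funext j; simp [dg]
        simp [this]
      | insert i S hi ih2 =>
        have : dg (insert i S) h = Pi.mulSingle i h * dg S h := by
          funext j
          by_cases hj : j = i
          · subst hj
            simp [dg, hi]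
          · simp [dg, hj]
        rw [this, tr1 i h _ (by simp [dg, hi]), ih2, prod_insert hi, mul_assoc]
    refine comb (1 : H) hι (fun i h => μ i h / Fintype.card H) (fun i => ?_) (fun S hS => ?_)
    · have e := tr1 i 1 1 rfl
      simp only [Pi.mulSingle_one, mul_one, map_one, LinearMap.trace_one] at e
      have := mul_right_cancel₀ hd (e.symm.trans (one_mul _).symm)
      exact this
    · have e := congrArg (LinearMap.trace ℂ V) (hρ S hS)
      simp only [map_sum, tr2, ← sum_mul, map_zero] at e
      exact (mul_eq_zero.1 e).resolve_right hd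
  · push Not at hs
    obtain ⟨i, h, hne⟩ := hs
    obtain ⟨μ, hμ⟩ := Module.End.exists_eigenvalue (c i h)
    set W := Module.End.eigenspace (c i h) μ with hW
    have hWt : W ≠ ⊤ := by
      intro ht
      apply hne μ
      ext v
      have : v ∈ W := ht ▸ Submodule.mem_top
      simpa using Module.End.mem_eigenspace_iff.1 this
    have hinv : ∀ k, ∀ v ∈ W, ρ k v ∈ W := by
      intro k v hv
      rw [hW, Module.End.mem_eigenspace_iff] at hv ⊢
      have := congrArg (fun T : Module.End ℂ V => T v) (hcomm i h k)
      simp only [Module.End.mul_apply] at this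
      rw [this, hv, map_smul]
    have : Nontrivial W := Submodule.nontrivial_iff_ne_bot.2 hμ
    let ρ' : (ι → H) →* Module.End ℂ W :=
      { toFun := fun k => (ρ k).restrict (hinv k)
        map_one' := by ext v; simp
        map_mul' := fun a b => by ext v; simp }
    refine ih (Module.finrank ℂ W) (hn ▸ Submodule.finrank_lt hWt) W rfl ρ' fun S hS => ?_
    ext v
    have := congrArg (fun T : Module.End ℂ V => T v) (hρ S hS)
    simpa [ρ'] using this

theorem alg_false {H ι : Type} [Group H] [Fintype H] [Fintype ι] [DecidableEq ι]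
    (hι : 2 ^ Fintype.card H * Fintype.card H < Fintype.card ι)
    {B : Type u} [Ring B] [Algebra ℂ B] [Nontrivial B] (v : (ι → H) →* B)
    (hv : ∀ S : Finset ι, S.Nonempty → ∑ h, v (dg S h) = 0) : False := by
  set V := Submodule.span ℂ (Set.range v) with hV
  have : FiniteDimensional ℂ V := FiniteDimensional.span_of_finite ℂ (Set.finite_range v)
  have : Nontrivial V := by
    refine Submodule.nontrivial_iff_ne_bot.2 fun hb => ?_
    have : v 1 ∈ V := Submodule.subset_span ⟨1, rfl⟩
    rw [hb, map_one] at this
    simp at this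
  have hinv : ∀ k, ∀ x ∈ V, LinearMap.mulLeft ℂ (v k) x ∈ V := by
    intro k x hx
    induction hx using Submodule.span_induction with
    | mem x hx =>
      obtain ⟨l, rfl⟩ := hx
      exact Submodule.subset_span ⟨k * l, by simp⟩
    | zero => simp
    | add x y _ _ hx hy => rw [map_add]; exact V.add_mem hx hy
    | smul a x _ hx => rw [map_smul]; exact V.smul_mem a hx
  let ρ : (ι → H) →* Module.End ℂ V :=
    { toFun := fun k => (LinearMap.mulLeft ℂ (v k)).restrict (hinv k)
      map_one' := by ext x; simp
      map_mul' := fun a b => by ext x; simp [mul_assoc] }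
  refine rep_false hι _ V rfl ρ fun S hS => ?_
  ext x
  have := congrArg (fun b : B => b * x) (hv S hS)
  simpa [ρ, sum_mul] using this

end Pool.Agent.H.MP_4da108_an
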