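import Pool.Agent.H.MP_4da108_an.A

set_option autoImplicit false

namespace Pool.Agent.H.MP_4da108_an

open Finset

universe u

/-- bundled finite groups -/
structure FG where
  T : Type
  grp : Group T
  fin : Finite T

attribute [instance] FG.grp FG.fin

/-- index set -/
abbrev Ix (H : Type) : Type := Fin (2 ^ Nat.card H * Nat.card H + 1)

/-- the next group -/
def step (H : FG) : FG := ⟨Equiv.Perm (Ix H.T → H.T), inferInstance, inferInstance⟩

/-- left multiplication -/
def lm (H : FG) : (Ix H.T → H.T) →* (step H).T :=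
  MulAction.toPermHom (Ix H.T → H.T) (Ix H.T → H.T)

/-- the diagonal embedding -/
def emb (H : FG) : H.T →* (step H).T := (lm H).comp (Pi.constMonoidHom _ _)

theorem emb_inj (H : FG) : Function.Injective (emb H) := by
  intro a b h
  have : a * 1 = b * 1 := congrArg (fun σ : Equiv.Perm (Ix H.T → H.T) => σ 1 0) h
  simpa using this

theorem conj_dg (H : FG) (S : Finset (Ix H.T)) (hS : S.Nonempty) :
    ∃ σ : (step H).T, ∀ h, lm H (dg S h) = σ⁻¹ * emb H h * σ := by
  obtain ⟨s, hs⟩ := hS
  let σ : Equiv.Perm (Ix H.T → H.T) :=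
    { toFun := fun x i => if i ∈ S then x i else x s * x i
      invFun := fun y i => if i ∈ S then y i else (y s)⁻¹ * y i
      left_inv := fun x => by
        funext i
        by_cases hi : i ∈ S <;> simp [hi, hs]
      right_inv := fun y => by
        funext i
        by_cases hi : i ∈ S <;> simp [hi, hs] }
  refine ⟨σ, fun h => ?_⟩
  rw [mul_assoc, eq_inv_mul_iff_mul_eq]
  refine Equiv.ext fun x => ?_
  funext i
  change σ (dg S h * x) i = h * σ x i
  by_cases hi : i ∈ S <;> simp [σ, dg, hi, hs, mul_assoc]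

theorem step_false (H : FG) {B : Type u} [Ring B] [Algebra ℂ B] [Nontrivial B] [Fintype H.T]
    (v : (step H).T →* B) (hv : ∑ h, v (emb H h) = 0) : False := by
  refine alg_false (H := H.T) (ι := Ix H.T) (by simp) (v.comp (lm H)) fun S hS => ?_
  obtain ⟨σ, hσ⟩ := conj_dg H S hS
  simp only [MonoidHom.comp_apply, hσ, map_mul, ← sum_mul, ← mul_sum, hv, mul_zero, zero_mul]

/-- the tower -/
def GG : ℕ → FG
  | 0 => ⟨Multiplicative (ZMod 2), inferInstance, inferInstance⟩
  | n + 1 => step (GG n)

/-- transition maps -/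
def tr (m n : ℕ) (h : m ≤ n) : (GG m).T →* (GG n).T :=
  Nat.leRecOn h (fun {k} (f : (GG m).T →* (GG k).T) => (emb (GG k)).comp f) (MonoidHom.id _)

theorem tr_self (m : ℕ) : tr m m le_rfl = MonoidHom.id _ := Nat.leRecOn_self _

theorem tr_succ (m n : ℕ) (h : m ≤ n) (h' : m ≤ n + 1) :
    tr m (n + 1) h' = (emb (GG n)).comp (tr m n h) := Nat.leRecOn_succ h _

instance : DirectedSystem (fun n => (GG n).T) (fun i j h => tr i j h) where
  map_self i x := by rw [tr_self]; rfl
  map_map k j i hij hjk x := by
    induction k, hjk using Nat.le_induction with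
    | base => rw [tr_self]; rfl
    | succ k hk ih =>
      rw [tr_succ j k hk, tr_succ i k (hij.trans hk)]
      exact congrArg (emb (GG k)) ih

theorem tr_inj (m n : ℕ) (h : m ≤ n) : Function.Injective (tr m n h) := by
  induction n, h using Nat.le_induction with
  | base => rw [tr_self]; exact Function.injective_id
  | succ k hk ih =>
    rw [tr_succ m k hk]
    exact (emb_inj _).comp ih

/-- the limit group -/
def LG : Type := DirectLimit (fun n => (GG n).T) tr

noncomputable instance : Group LG := inferInstanceAs (Group (DirectLimit (fun n => (GG n).T) tr))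

/-- the canonical maps -/
noncomputable def jj (n : ℕ) : (GG n).T →* LG where
  toFun x := (⟦⟨n, x⟩⟧ : DirectLimit (fun n => (GG n).T) tr)
  map_one' := (DirectLimit.one_def (f := tr) n).symm
  map_mul' x y := (DirectLimit.mul_def (f := tr) n x y).symm

theorem jj_tr (m n : ℕ) (h : m ≤ n) (x : (GG m).T) : jj n (tr m n h x) = jj m x :=
  (DirectLimit.eq_of_le (F := fun n => (GG n).T) (f := tr) ⟨m, x⟩ n h).symm

theorem jj_emb (n : ℕ) (x : (GG n).T) : jj (n + 1) (emb (GG n) x) = jj n x := by
  rw [← jj_tr n (n + 1) n.le_succ, tr_succ n n le_rfl, tr_self]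
  rfl

theorem jj_surj (g : LG) : ∃ n x, jj n x = g := by
  obtain ⟨n, x, h⟩ := DirectLimit.exists_eq_mk tr g
  exact ⟨n, x, h.symm⟩

theorem jj_inj (n : ℕ) : Function.Injective (jj n) :=
  DirectLimit.mk_injective tr tr_inj n

instance : Countable LG := by
  have : Function.Surjective (fun p : Σ n, (GG n).T => jj p.1 p.2) := fun g => by
    obtain ⟨n, x, h⟩ := jj_surj g
    exact ⟨⟨n, x⟩, h⟩
  exact this.countable

instance : Nontrivial LG := by
  have : Nontrivial (GG 0).T := inferInstanceAs (Nontrivial (Multiplicative (ZMod 2)))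
  exact (jj_inj 0).nontrivial

theorem exists_level (s : Finset LG) : ∃ n, ∀ g ∈ s, ∃ x, jj n x = g := by
  classical
  choose N x hx using jj_surj
  refine ⟨s.sup N, fun g hg => ⟨tr _ _ (le_sup hg) (x g), ?_⟩⟩
  rw [jj_tr, hx]

theorem LG_false {B : Type u} [Ring B] [Algebra ℂ B] [Nontrivial B] (v : LG →* B) (n : ℕ)
    [Fintype (GG n).T] (hv : ∑ h, v (jj n h) = 0) : False := by
  refine step_false (GG n) (v.comp (jj (n + 1))) ?_
  refine Eq.trans (sum_congr rfl fun h _ => ?_) hv
  exact congrArg v (jj_emb n h)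

end Pool.Agent.H.MP_4da108_an
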