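import Mathlib

set_option autoImplicit false

namespace Pool.Agent.H.MP_4da108_an

open scoped ComplexOrder InnerProductSpace
open UniformSpace

universe u

/-- states -/
def St (A : Type u) [CStarAlgebra A] : Set (A → ℂ) :=
  {φ | (∀ a b, φ (a + b) = φ a + φ b) ∧ (∀ (c : ℂ) a, φ (c • a) = c * φ a) ∧ φ 1 = 1 ∧
    (∀ a, 0 ≤ φ (star a * a)) ∧ ∀ a, ‖φ a‖ ≤ ‖a‖}

variable {A : Type u} [CStarAlgebra A]

theorem St_compact : IsCompact (St A) := by
  have h1 : IsCompact (Set.pi Set.univ fun a : A => Metric.closedBall (0 : ℂ) ‖a‖) :=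
    isCompact_univ_pi fun a => isCompact_closedBall _ _
  refine h1.of_isClosed_subset ?_ fun φ hφ a _ => by simpa using hφ.2.2.2.2 a
  simp only [St, Set.ofPred_and, Set.ofPred_forall]
  refine IsClosed.inter ?_ (IsClosed.inter ?_ (IsClosed.inter ?_ (IsClosed.inter ?_ ?_)))
  · exact isClosed_iInter fun a => isClosed_iInter fun b => isClosed_eq (by fun_prop) (by fun_prop)
  · exact isClosed_iInter fun a => isClosed_iInter fun b => isClosed_eq (by fun_prop) (by fun_prop)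
  · exact isClosed_eq (by fun_prop) (by fun_prop)
  · exact isClosed_iInter fun a => isClosed_le (by fun_prop) (by fun_prop)
  · exact isClosed_iInter fun a => isClosed_le (by fun_prop) (by fun_prop)

theorem St_convex : Convex ℝ (St A) := by
  rintro φ ⟨a1, a2, a3, a4, a5⟩ ψ ⟨b1, b2, b3, b4, b5⟩ s t hs ht hst
  refine ⟨fun a b => ?_, fun c a => ?_, ?_, fun a => ?_, fun a => ?_⟩
  · simp only [Pi.add_apply, Pi.smul_apply, a1, b1, smul_add]
    abel
  · simp only [Pi.add_apply, Pi.smul_apply, a2, b2, Complex.real_smul]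
    ring
  · simp only [Pi.add_apply, Pi.smul_apply, a3, b3, ← add_smul, hst, one_smul]
  · exact add_nonneg (smul_nonneg hs (a4 a)) (smul_nonneg ht (b4 a))
  · simp only [Pi.add_apply, Pi.smul_apply]
    calc _ ≤ ‖s • φ a‖ + ‖t • ψ a‖ := norm_add_le _ _
      _ = s * ‖φ a‖ + t * ‖ψ a‖ := by
        rw [norm_smul, norm_smul, Real.norm_of_nonneg hs, Real.norm_of_nonneg ht]
      _ ≤ s * ‖a‖ + t * ‖a‖ := by gcongr; exacts [a5 a, b5 a]
      _ = ‖a‖ := by rw [← add_mul, hst, one_mul]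

theorem vec_state {H : Type*} [NormedAddCommGroup H] [InnerProductSpace ℂ H] [CompleteSpace H]
    (π : A →⋆ₐ[ℂ] (H →L[ℂ] H)) (ξ : H) (hξ : ξ ≠ 0) :
    (fun a => ((‖ξ‖ ^ 2)⁻¹ : ℝ) • ⟪ξ, π a ξ⟫_ℂ) ∈ St A := by
  have hp : 0 < ‖ξ‖ ^ 2 := by positivity
  refine ⟨fun a b => ?_, fun c a => ?_, ?_, fun a => ?_, fun a => ?_⟩
  · simp
  · simp only [map_smul, smul_apply, inner_smul_right, Complex.real_smul]
    ring
  · have : ((‖ξ‖ : ℂ) ^ 2) ≠ 0 := by exact_mod_cast hp.ne'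
    simp [inner_self_eq_norm_sq_to_K, this]
  · refine smul_nonneg (inv_nonneg.2 hp.le) ?_
    rw [map_mul, map_star, mul_apply_eq_comp, ContinuousLinearMap.star_eq_adjoint,
      ContinuousLinearMap.adjoint_inner_right, inner_self_eq_norm_sq_to_K]
    positivity
  · rw [norm_smul, Real.norm_of_nonneg (inv_nonneg.2 hp.le), inv_mul_le_iff₀ hp]
    calc _ ≤ ‖ξ‖ * ‖π a ξ‖ := norm_inner_le_norm _ _
      _ ≤ ‖ξ‖ * (‖π a‖ * ‖ξ‖) := by gcongr; exact (π a).le_opNorm _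
      _ ≤ ‖ξ‖ * (‖a‖ * ‖ξ‖) := by gcongr; exact NonUnitalStarAlgHom.norm_apply_le π a
      _ = _ := by ring

theorem irr_of_extreme {H : Type*} [NormedAddCommGroup H] [InnerProductSpace ℂ H]
    [CompleteSpace H] (π : A →⋆ₐ[ℂ] (H →L[ℂ] H)) (ξ : H) (hd : DenseRange fun a => π a ξ)
    (hn : ‖ξ‖ = 1) (he : (fun a => ⟪ξ, π a ξ⟫_ℂ) ∈ (St A).extremePoints ℝ)
    (K : Submodule ℂ H) (hK : IsClosed (K : Set H)) (hi : ∀ a, ∀ x ∈ K, π a x ∈ K) :
    K = ⊥ ∨ K = ⊤ := by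
  have : CompleteSpace K := hK.completeSpace_coe
  have hi' : ∀ a, ∀ x ∈ Kᗮ, π a x ∈ Kᗮ := by
    intro a x hx
    rw [Submodule.mem_orthogonal] at hx ⊢
    intro y hy
    rw [← ContinuousLinearMap.adjoint_inner_left, ← ContinuousLinearMap.star_eq_adjoint,
      ← map_star]
    exact hx _ (hi _ _ hy)
  obtain ⟨p, hp, q, hq, hpq⟩ := K.exists_add_mem_mem_orthogonal ξ
  have top_of : ∀ L : Submodule ℂ H, IsClosed (L : Set H) → (∀ a, ∀ x ∈ L, π a x ∈ L) → ξ ∈ L →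
      L = ⊤ := by
    intro L hL hL' hx
    rw [eq_top_iff]
    intro y _
    exact hd.induction_on y hL fun a => hL' a _ hx
  by_cases hp0 : p = 0
  · left
    rw [← Submodule.orthogonal_eq_top_iff]
    exact top_of _ K.isClosed_orthogonal hi' (by simpa [hpq, hp0] using hq)
  by_cases hq0 : q = 0
  · right
    exact top_of _ hK hi (by simpa [hpq, hq0] using hp)
  exfalso
  have hp1 : 0 < ‖p‖ ^ 2 := by positivity
  have hq1 : 0 < ‖q‖ ^ 2 := by positivity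
  have hpq0 : ⟪p, q⟫_ℂ = 0 := hq p hp
  have hsum : ‖p‖ ^ 2 + ‖q‖ ^ 2 = 1 := by
    have := norm_add_sq_eq_norm_sq_add_norm_sq_of_inner_eq_zero p q hpq0
    rw [← hpq, hn] at this
    nlinarith
  have hdec : ∀ a, ⟪ξ, π a ξ⟫_ℂ = ⟪p, π a p⟫_ℂ + ⟪q, π a q⟫_ℂ := by
    intro a
    have h1 : ⟪p, π a q⟫_ℂ = 0 := hi' a q hq p hp
    have h2 : ⟪q, π a p⟫_ℂ = 0 := by
      rw [inner_eq_zero_symm]
      exact hq _ (hi a p hp)
    rw [hpq, map_add, inner_add_left, inner_add_right, inner_add_right, h1, h2]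
    ring
  have hseg := (mem_extremePoints.1 he).2 _ (vec_state π p hp0) _ (vec_state π q hq0)
    ⟨‖p‖ ^ 2, ‖q‖ ^ 2, hp1, hq1, hsum, by
      funext a
      simp only [Pi.add_apply, Pi.smul_apply, smul_smul, mul_inv_cancel₀ hp1.ne',
        mul_inv_cancel₀ hq1.ne', one_smul, hdec]⟩
  have h1 : ∀ a, ‖π a p‖ ^ 2 = ‖p‖ ^ 2 * ‖π a ξ‖ ^ 2 := by
    intro a
    have := congrFun hseg.1 (star a * a)
    simp only [map_mul, map_star, mul_apply_eq_comp,
      ContinuousLinearMap.star_eq_adjoint, ContinuousLinearMap.adjoint_inner_right,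
      inner_self_eq_norm_sq_to_K, Complex.real_smul] at this
    have h2 : (‖p‖ ^ 2)⁻¹ * ‖π a p‖ ^ 2 = ‖π a ξ‖ ^ 2 := by
      apply Complex.ofReal_injective
      push_cast
      simpa using this
    rw [← h2]
    field_simp
  have h2 : ∀ y, ‖K.starProjection y‖ ^ 2 = ‖p‖ ^ 2 * ‖y‖ ^ 2 := by
    intro y
    refine hd.induction_on y (isClosed_eq (by fun_prop) (by fun_prop)) fun a => ?_
    rw [← h1]
    congr 2
    rw [hpq, map_add, map_add, Submodule.starProjection_eq_self_iff.2 (hi a p hp),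
      (K.starProjection_apply_eq_zero_iff).2 (hi' a q hq), add_zero]
  have h3 := h2 q
  rw [(K.starProjection_apply_eq_zero_iff).2 hq] at h3
  have := mul_pos hp1 hq1
  simp only [norm_zero] at h3
  nlinarith

theorem gns_state {φ : A → ℂ} (hφ : φ ∈ St A) :
    ∃ (H : Type u) (_ : NormedAddCommGroup H) (_ : InnerProductSpace ℂ H) (_ : CompleteSpace H)
      (π : A →⋆ₐ[ℂ] (H →L[ℂ] H)) (ξ : H), DenseRange (fun a => π a ξ) ∧ ‖ξ‖ = 1 ∧
      φ = fun a => ⟪ξ, π a ξ⟫_ℂ := by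
  obtain ⟨a1, a2, a3, a4, -⟩ := hφ
  let _ := CStarAlgebra.spectralOrder A
  have := CStarAlgebra.spectralOrderedRing A
  let f : A →ₚ[ℂ] ℂ := PositiveLinearMap.mk₀ ⟨⟨φ, a1⟩, a2⟩ fun x hx => by
    obtain ⟨b, rfl⟩ := CStarAlgebra.nonneg_iff_eq_star_mul_self.1 hx
    exact a4 b
  have hf : ∀ a, f a = φ a := fun _ => rfl
  have happ : ∀ a, f.gnsStarAlgHom a (f.toPreGNS 1 : f.PreGNS) =
      ((f.toPreGNS a : f.PreGNS) : f.GNS) := by
    intro a
    simp
  refine ⟨f.GNS, inferInstance, inferInstance, inferInstance, f.gnsStarAlgHom,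
    (f.toPreGNS 1 : f.PreGNS), ?_, ?_, ?_⟩
  · simp only [happ]
    exact Completion.denseRange_coe.comp f.toPreGNS.surjective.denseRange
      (Completion.continuous_coe _)
  · rw [Completion.norm_coe, f.preGNS_norm_def]
    simp [hf, a3]
  · funext a
    rw [happ, Completion.inner_coe, f.preGNS_inner_def]
    simp [hf]

theorem exists_irr {τ : A → ℂ} (hτ : τ ∈ St A) (ε : A → ℂ) (h : τ ≠ ε) :
    ∃ (H : Type u) (_ : NormedAddCommGroup H) (_ : InnerProductSpace ℂ H) (_ : CompleteSpace H)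
      (π : A →⋆ₐ[ℂ] (H →L[ℂ] H)) (ξ : H), ‖ξ‖ = 1 ∧ (fun a => ⟪ξ, π a ξ⟫_ℂ) ≠ ε ∧
      ∀ K : Submodule ℂ H, IsClosed (K : Set H) → (∀ a, ∀ x ∈ K, π a x ∈ K) → K = ⊥ ∨ K = ⊤ := by
  have : ∃ φ ∈ (St A).extremePoints ℝ, φ ≠ ε := by
    by_contra hc
    push Not at hc
    have h1 : (St A).extremePoints ℝ ⊆ {ε} := hc
    have h2 := closure_convexHull_extremePoints (St_compact (A := A)) St_convex
    have h3 : closure (convexHull ℝ ((St A).extremePoints ℝ)) ⊆ {ε} :=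
      closure_minimal (convexHull_min h1 (convex_singleton _)) isClosed_singleton
    exact h (h3 (h2.symm ▸ hτ))
  obtain ⟨φ, hφ, hne⟩ := this
  obtain ⟨H, i1, i2, i3, π, ξ, hd, hn, rfl⟩ := gns_state hφ.1
  exact ⟨H, i1, i2, i3, π, ξ, hn, hne, irr_of_extreme π ξ hd hn hφ⟩

end Pool.Agent.H.MP_4da108_an
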