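import Pool.Agent.H.MP_4da108_an.B
import Pool.Agent.H.MP_4da108_an.C

set_option autoImplicit false

namespace Pool.Agent.H.MP_4da108_an

open scoped ComplexOrder InnerProductSpace ENNReal
open Finset

universe u

/-- nonzero unitary representations in C*-algebras -/
structure Idx (G : Type) [Group G] : Type 1 where
  B : Type
  cs : CStarAlgebra B
  nt : Nontrivial B
  v : G →* unitary B

attribute [instance] Idx.cs Idx.nt

section

variable (G : Type) [Group G]

/-- the bounded product -/
abbrev PP : Type 1 := lp (fun i : Idx G => i.B) ∞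

noncomputable instance : CStarAlgebra (PP G) where

/-- the universal unitaries -/
noncomputable def UU (g : G) : PP G :=
  ⟨fun i => (i.v g : i.B), memℓp_infty ⟨1, by
    rintro _ ⟨i, rfl⟩
    exact (CStarRing.norm_coe_unitary (i.v g)).le⟩⟩

theorem UU_mul (g h : G) : UU G (g * h) = UU G g * UU G h :=
  lp.ext (funext fun i => by
    change ((i.v (g * h) : unitary i.B) : i.B) = (i.v g : i.B) * i.v h
    simp)

theorem UU_one : UU G 1 = 1 :=
  lp.ext (funext fun i => by
    change ((i.v 1 : unitary i.B) : i.B) = 1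
    simp)

theorem UU_star (g : G) : star (UU G g) = UU G g⁻¹ :=
  lp.ext (funext fun i => by
    change star ((i.v g : unitary i.B) : i.B) = (i.v g⁻¹ : unitary i.B)
    rw [map_inv]
    rfl)

/-- the span of the unitaries -/
noncomputable def SS : StarSubalgebra ℂ (PP G) where
  toSubalgebra := (Submodule.span ℂ (Set.range (UU G))).toSubalgebra
    (UU_one G ▸ Submodule.subset_span ⟨1, rfl⟩) (fun x y hx hy => by
      set S := Submodule.span ℂ (Set.range (UU G))
      induction hx, hy using Submodule.span_induction₂ with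
      | mem_mem x y hx hy =>
        obtain ⟨g, rfl⟩ := hx
        obtain ⟨h, rfl⟩ := hy
        exact UU_mul G g h ▸ Submodule.subset_span ⟨_, rfl⟩
      | zero_left => simp
      | zero_right => simp
      | add_left x y z _ _ _ a c => exact add_mul x y z ▸ S.add_mem a c
      | add_right x y z _ _ _ a c => exact mul_add x y z ▸ S.add_mem a c
      | smul_left a x y _ _ c => exact smul_mul_assoc a x y ▸ S.smul_mem _ c
      | smul_right a x y _ _ c => exact mul_smul_comm a x y ▸ S.smul_mem _ c)
  star_mem' := fun {x} hx => by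
    set S := Submodule.span ℂ (Set.range (UU G))
    change star x ∈ S
    change x ∈ S at hx
    induction hx using Submodule.span_induction with
    | mem x hx =>
      obtain ⟨g, rfl⟩ := hx
      exact UU_star G g ▸ Submodule.subset_span ⟨_, rfl⟩
    | zero => simp
    | add x y _ _ a c => exact star_add x y ▸ S.add_mem a c
    | smul a x _ c => exact star_smul a x ▸ S.smul_mem _ c

/-- the full group C*-algebra -/
def CG : Type 1 := (SS G).topologicalClosure

noncomputable instance : CStarAlgebra (CG G) :=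
  StarSubalgebra.cstarAlgebra (SS G).topologicalClosure
    (h_closed := (SS G).isClosed_topologicalClosure)

/-- the inclusion -/
noncomputable def inc : CG G →⋆ₐ[ℂ] PP G := (SS G).topologicalClosure.subtype

/-- generators -/
noncomputable def ug (g : G) : CG G :=
  ⟨UU G g, subset_closure (Submodule.subset_span ⟨g, rfl⟩)⟩

theorem ug_mul (g h : G) : ug G (g * h) = ug G g * ug G h := Subtype.ext (UU_mul G g h)

theorem ug_one : ug G 1 = 1 := Subtype.ext (UU_one G)

theorem ug_star (g : G) : star (ug G g) = ug G g⁻¹ := Subtype.ext (UU_star G g)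

/-- the universal representation -/
noncomputable def uu : G →* unitary (CG G) where
  toFun g := ⟨ug G g, by
    rw [Unitary.mem_iff, ug_star, ← ug_mul, ← ug_mul, inv_mul_cancel, mul_inv_cancel, ug_one]
    simp⟩
  map_one' := Subtype.ext (ug_one G)
  map_mul' g h := Subtype.ext (ug_mul G g h)

theorem uu_dense :
    Dense (Submodule.span ℂ (Set.range fun g => (uu G g : CG G)) : Set (CG G)) := by
  refine (Subtype.dense_iff (s := ((SS G).topologicalClosure : Set (PP G)))).2 ?_
  refine closure_mono fun x hx => ?_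
  change x ∈ Submodule.span ℂ (Set.range (UU G)) at hx
  have : Submodule.span ℂ (Set.range (UU G)) =
      (Submodule.span ℂ (Set.range fun g => (uu G g : CG G))).map
        (inc G).toAlgHom.toLinearMap := by
    rw [Submodule.map_span, ← Set.range_comp]
    rfl
  rw [this] at hx
  exact hx

/-- evaluation -/
noncomputable def ev (i : Idx G) : PP G →⋆ₐ[ℂ] i.B where
  toFun x := x i
  map_one' := rfl
  map_mul' _ _ := rfl
  map_zero' := rfl
  map_add' _ _ := rfl
  commutes' _ := rfl
  map_star' _ := rfl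

theorem uu_univ (B : Type) [CStarAlgebra B] (v : G →* unitary B) :
    ∃ φ : CG G →⋆ₐ[ℂ] B, ∀ g, φ (uu G g) = v g := by
  rcases subsingleton_or_nontrivial B with h | h
  · exact ⟨{ toFun := fun _ => 0
             map_one' := Subsingleton.elim _ _
             map_mul' := fun _ _ => Subsingleton.elim _ _
             map_zero' := rfl
             map_add' := fun _ _ => Subsingleton.elim _ _
             commutes' := fun _ => Subsingleton.elim _ _
             map_star' := fun _ => Subsingleton.elim _ _ }, fun _ => Subsingleton.elim _ _⟩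
  · exact ⟨(ev G ⟨B, inferInstance, h, v⟩).comp (inc G), fun g => rfl⟩

theorem exists_reg : ∃ (v : G →* unitary (lp (fun _ : G => ℂ) 2 →L[ℂ] lp (fun _ : G => ℂ) 2))
    (b : HilbertBasis G ℂ (lp (fun _ : G => ℂ) 2)),
    ∀ g h, (v g : _ →L[ℂ] _) (b h) = b (g * h) := by
  let b : HilbertBasis G ℂ (lp (fun _ : G => ℂ) 2) := default
  have hs : ∀ g : G, ⊤ ≤ (Submodule.span ℂ (Set.range (b ∘ fun h => g * h))).topologicalClosure := by
    intro g
    rw [(mul_left_surjective g).range_comp b]
    exact b.dense_span.ge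
  let c : G → HilbertBasis G ℂ (lp (fun _ : G => ℂ) 2) := fun g =>
    HilbertBasis.mk (b.orthonormal.comp _ (mul_right_injective g)) (hs g)
  let W : G → lp (fun _ : G => ℂ) 2 ≃ₗᵢ[ℂ] lp (fun _ : G => ℂ) 2 := fun g =>
    b.repr.trans (c g).repr.symm
  have hW : ∀ g h, W g (b h) = b (g * h) := by
    classical
    intro g h
    simp [W, c, b.repr_self]
  have hext : ∀ S T : lp (fun _ : G => ℂ) 2 ≃ₗᵢ[ℂ] lp (fun _ : G => ℂ) 2,
      (∀ h, S (b h) = T (b h)) → S = T := by
    intro S T h
    have : S.toLinearIsometry.toContinuousLinearMap = T.toLinearIsometry.toContinuousLinearMap :=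
      ContinuousLinearMap.ext_on (s := Set.range b)
      (Submodule.dense_iff_topologicalClosure_eq_top.2 b.dense_span) (Set.forall_mem_range.2 h)
    exact LinearIsometryEquiv.ext fun x => DFunLike.congr_fun this x
  let W' : G →* (lp (fun _ : G => ℂ) 2 ≃ₗᵢ[ℂ] lp (fun _ : G => ℂ) 2) :=
    { toFun := W
      map_one' := hext _ _ fun h => by simp [hW]
      map_mul' := fun g k => hext _ _ fun h => by simp [hW, mul_assoc] }
  exact ⟨Unitary.linearIsometryEquiv.symm.toMonoidHom.comp W', b, hW⟩

end

section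

variable {A : Type u} [CStarAlgebra A] {w : LG →* unitary A} {ε : A →⋆ₐ[ℂ] ℂ}

theorem le_ker (hd : Dense (Submodule.span ℂ (Set.range fun g => (w g : A)) : Set A))
    (hε : ∀ g, ε (w g) = 1) (M : TwoSidedIdeal A) (hM : M ≠ ⊤) {a : A} (ha : a ∈ M) :
    ε a = 0 := by
  classical
  by_contra hne
  have hpos : 0 < ‖ε a‖ / 2 := by positivity
  obtain ⟨b, hb, hab⟩ := hd.exists_dist_lt a hpos
  rw [dist_eq_norm] at hab
  have h1 : ‖ε a - ε b‖ ≤ ‖a - b‖ := by
    rw [← map_sub]
    exact NonUnitalStarAlgHom.norm_apply_le ε _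
  have h2 : ‖a - b‖ < ‖ε b‖ := by
    have := norm_sub_norm_le (ε a) (ε b)
    linarith
  obtain ⟨c, rfl⟩ := Finsupp.mem_span_range_iff_exists_finsupp.1 hb
  obtain ⟨n, hn⟩ := exists_level c.support
  have := Fintype.ofFinite (GG n).T
  set E : A := ∑ h, (w (jj n h) : A) with hE
  set b := c.sum fun g r => r • (w g : A) with hb'
  have h3 : b * E = ε b • E := by
    simp only [hb', Finsupp.sum, map_sum, sum_mul, sum_smul, map_smul, hε, smul_mul_assoc,
      smul_eq_mul, mul_one]
    refine sum_congr rfl fun g hg => ?_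
    obtain ⟨x, rfl⟩ := hn g hg
    congr 1
    rw [hE, mul_sum]
    exact Fintype.sum_equiv (Equiv.mulLeft x) _ _ fun h => by simp
  have hb0 : ε b ≠ 0 := norm_pos_iff.1 ((norm_nonneg _).trans_lt h2)
  have h4 : ‖-((ε b)⁻¹ • (a - b))‖ < 1 := by
    rw [norm_neg, norm_smul, norm_inv, inv_mul_lt_iff₀ (norm_pos_iff.2 hb0), mul_one]
    exact h2
  have h5 : (Units.oneSub _ h4 : A) * E = (ε b)⁻¹ • (a * E) := by
    rw [Units.val_oneSub, sub_neg_eq_add, add_mul, smul_mul_assoc, sub_mul, h3, smul_sub,
      smul_smul, inv_mul_cancel₀ hb0]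
    simp
  have h6 : E ∈ M := by
    have : E = ((Units.oneSub _ h4)⁻¹ : Aˣ) * (algebraMap ℂ A (ε b)⁻¹ * (a * E)) := by
      rw [← Algebra.smul_def, ← h5, Units.inv_mul_cancel_left]
    rw [this]
    exact M.mul_mem_left _ _ (M.mul_mem_left _ _ (M.mul_mem_right _ _ ha))
  have : Nontrivial (A ⧸ M.asIdeal) := Ideal.Quotient.nontrivial_iff.2 fun h => hM (by
    rw [← TwoSidedIdeal.one_mem_iff, ← TwoSidedIdeal.mem_asIdeal, h]
    trivial)
  refine LG_false (B := A ⧸ M.asIdeal)
    ((Ideal.Quotient.mk M.asIdeal).toMonoidHom.comp ((unitary A).subtype.comp w)) n ?_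
  have h7 : Ideal.Quotient.mk M.asIdeal E = 0 :=
    Ideal.Quotient.eq_zero_iff_mem.2 (TwoSidedIdeal.mem_asIdeal.2 h6)
  rw [hE, map_sum] at h7
  exact h7

theorem center_zero (hd : Dense (Submodule.span ℂ (Set.range fun g => (w g : A)) : Set A))
    (hε : ∀ g, ε (w g) = 1) {z : A} (hz : z ∈ Set.center A) (h0 : ε z = 0) : z = 0 := by
  rw [Semigroup.mem_center_iff] at hz
  have hs : ∀ l ∈ spectrum ℂ z, l = 0 := by
    intro l hl
    set c := algebraMap ℂ A l - z with hc
    have hcc : ∀ y, y * c = c * y := fun y => by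
      rw [hc, mul_sub, sub_mul, hz, Algebra.commutes]
    let M : TwoSidedIdeal A := TwoSidedIdeal.mk' {x | ∃ y, x = c * y} ⟨0, by simp⟩
      (by rintro _ _ ⟨y, rfl⟩ ⟨y', rfl⟩; exact ⟨y + y', (mul_add _ _ _).symm⟩)
      (by rintro _ ⟨y, rfl⟩; exact ⟨-y, by simp⟩)
      (by rintro x _ ⟨y, rfl⟩; exact ⟨x * y, by rw [← mul_assoc, hcc, mul_assoc]⟩)
      (by rintro _ x ⟨y, rfl⟩; exact ⟨y * x, mul_assoc _ _ _⟩)
    have hM : M ≠ ⊤ := by
      intro h
      rw [← TwoSidedIdeal.one_mem_iff, TwoSidedIdeal.mem_mk'] at h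
      obtain ⟨y, hy⟩ := h
      exact spectrum.mem_iff.1 hl ⟨⟨c, y, hy.symm, (hcc y).trans hy.symm⟩, rfl⟩
    have := le_ker hd hε M hM (a := c) (by rw [TwoSidedIdeal.mem_mk']; exact ⟨1, by simp⟩)
    rw [hc, map_sub, h0, sub_zero, AlgHomClass.commutes] at this
    exact this
  have : IsStarNormal z := ⟨hz _⟩
  have h1 := IsStarNormal.spectralRadius_eq_nnnorm z
  have h2 : spectralRadius ℂ z = 0 := by
    refine le_antisymm (iSup₂_le fun l hl => ?_) bot_le
    simp [hs l hl]
  rw [h2] at h1
  simpa using h1.symm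

end

end Pool.Agent.H.MP_4da108_an
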